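import Mathlib
import Pool.Agent.Q131.MC.Main

/-!
`MP_523fe6_co`, Q2: for every odd `n ≥ 3` the polynomial `S_n(m, 1)` is log-concave in `m`.
-/

namespace Pool.Agent.Results.MP_523fe6_co.LogConcaveAtOne

open Polynomial Finset

/-- The polynomial `((m, a)) = (1 / a!) * ∏_{s < a} (m + s)` in `ℚ[m]`. -/
noncomputable def multichoose (a : ℕ) : ℚ[X] :=
  C (1 / (a.factorial : ℚ)) * ∏ s ∈ range a, (X + C (s : ℚ))

/-- The polynomial `S_n(m, t)` for `n = 2 r + 1`, as an element of `(ℚ[m])[t]`. -/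
noncomputable def S (r : ℕ) : ℚ[X][X] :=
  ∑ i ∈ range r, (∑ s ∈ range (r - i), X ^ (i + 2 * s)) *
    C (multichoose i * multichoose (2 * r + 1 - i))

/-- The polynomial `S_n(m, 1)` in `ℚ[m]`, for `n = 2 r + 1`. -/
noncomputable def SOne (r : ℕ) : ℚ[X] := (S r).eval 1

theorem SOne_eq (r : ℕ) : SOne r = Q131.MC.S r 1 := by
  unfold SOne S Q131.MC.S
  rw [eval_finsetSum]
  refine Finset.sum_congr rfl fun i _ => ?_
  rw [eval_mul, eval_C, eval_finsetSum]
  simp only [eval_pow, eval_X, one_pow, Finset.sum_const, Finset.card_range, nsmul_eq_mul,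
    mul_one, map_natCast]
  rfl

/-- `S_n(m, 1)` is given by the one-variable formula of the problem, and for every odd `n ≥ 3`
its coefficient sequence is log-concave. -/
theorem result (r : ℕ) (hr : 1 ≤ r) :
    SOne r = ∑ i ∈ range r, C ((r : ℚ) - i) * (multichoose i * multichoose (2 * r + 1 - i)) ∧
    ∀ l : ℕ, (SOne r).coeff l * (SOne r).coeff (l + 2) ≤ (SOne r).coeff (l + 1) ^ 2 := by
  refine ⟨?_, ?_⟩
  · rw [SOne_eq]
    unfold Q131.MC.S
    refine Finset.sum_congr rfl fun i hi => ?_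
    simp only [one_pow, Finset.sum_const, Finset.card_range, nsmul_eq_mul, mul_one]
    rw [Nat.cast_sub (Finset.mem_range.mp hi).le]
    rfl
  · intro l
    rw [SOne_eq]
    exact Q131.MC.main r hr l

end Pool.Agent.Results.MP_523fe6_co.LogConcaveAtOne
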